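import Pool.Agent.Helper75.PX.Stmts4

/-! Sheet PX, row TRR: splitting with rational traces. -/

set_option autoImplicit false

universe u

open Module TensorProduct
open scoped Kronecker

namespace Pool.Agent.Helper7.PXT

theorem toMatrix_mulLeft {Ω : Type u} [Field Ω] {n : ℕ} (M : Matrix (Fin n) (Fin n) Ω) :
    LinearMap.toMatrix (Matrix.stdBasis Ω (Fin n) (Fin n)) (Matrix.stdBasis Ω (Fin n) (Fin n))
      (LinearMap.mulLeft Ω M) = M ⊗ₖ (1 : Matrix (Fin n) (Fin n) Ω) := by
  ext ⟨i, j⟩ ⟨k, l⟩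
  rw [LinearMap.toMatrix_apply, LinearMap.mulLeft_apply, Matrix.stdBasis_eq_single]
  have h2 : ∀ N : Matrix (Fin n) (Fin n) Ω,
      (Matrix.stdBasis Ω (Fin n) (Fin n)).repr N (i, j) = N i j := fun N => rfl
  rw [h2, Matrix.kroneckerMap_apply]
  by_cases h : j = l
  · subst h
    simp
  · rw [Matrix.one_apply_ne h, mul_zero, Matrix.mul_single_apply_of_ne]
    exact h

theorem charpoly_kron {Ω : Type u} [Field Ω] {n : ℕ} (M : Matrix (Fin n) (Fin n) Ω) :
    (M ⊗ₖ (1 : Matrix (Fin n) (Fin n) Ω)).charpoly = M.charpoly ^ n := by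
  have h : (M ⊗ₖ (1 : Matrix (Fin n) (Fin n) Ω)).charmatrix =
      M.charmatrix ⊗ₖ (1 : Matrix (Fin n) (Fin n) (Polynomial Ω)) := by
    ext1 ⟨i, j⟩ ⟨k, l⟩
    rw [Matrix.kroneckerMap_apply, Matrix.charmatrix_apply, Matrix.charmatrix_apply,
      Matrix.kroneckerMap_apply]
    by_cases h : j = l
    · subst h
      by_cases h1 : i = k
      · subst h1
        simp
      · simp [h1]
    · have h3 : (i, j) ≠ (k, l) := fun h4 => h (Prod.ext_iff.1 h4).2
      rw [Matrix.one_apply_ne h, Matrix.one_apply_ne h, Matrix.diagonal_apply_ne _ h3]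
      simp
  rw [Matrix.charpoly, h, Matrix.det_kronecker]
  simp [Matrix.charpoly]

theorem charpoly_mulLeft {Ω : Type u} [Field Ω] {n : ℕ} (M : Matrix (Fin n) (Fin n) Ω) :
    (LinearMap.mulLeft Ω M).charpoly = M.charpoly ^ n := by
  rw [← LinearMap.charpoly_toMatrix _ (Matrix.stdBasis Ω (Fin n) (Fin n)), toMatrix_mulLeft,
    charpoly_kron]

theorem pow_inj {Ω : Type u} [Field Ω] {p q : Polynomial Ω} (hp : p.Monic) (hq : q.Monic) {n : ℕ}
    (hn : n ≠ 0) (h : p ^ n = q ^ n) : p = q := by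
  refine Polynomial.eq_of_monic_of_associated hp hq (associated_of_dvd_dvd ?_ ?_)
  · exact (UniqueFactorizationMonoid.pow_dvd_pow_iff_dvd hn).1 h.dvd
  · exact (UniqueFactorizationMonoid.pow_dvd_pow_iff_dvd hn).1 h.symm.dvd

theorem smul_eq' {K Ω : Type u} [Field K] [Field Ω] [Algebra K Ω] {n : ℕ} (k : K)
    (M : Matrix (Fin n) (Fin n) Ω) : k • M = (algebraMap K Ω k) • M := by
  ext i j
  simp [Algebra.smul_def]

theorem ratl {K A Ω : Type u} [Field K] [Ring A] [Algebra K A] [Field Ω] [Algebra K Ω]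
    [IsGalois K Ω] {n : ℕ} (hn : 0 < n) (hrank : finrank K A = n ^ 2)
    (Ψ : A →ₐ[K] Matrix (Fin n) (Fin n) Ω) (hspan : Submodule.span Ω (Set.range Ψ) = ⊤) (x : A) :
    ∃ k : K, Matrix.trace (Ψ x) = algebraMap K Ω k := by
  classical
  have hfd : FiniteDimensional K A := FiniteDimensional.of_finrank_pos (by rw [hrank]; positivity)
  set b : Basis (Fin (n ^ 2)) K A := finBasisOfFinrankEq K A hrank with hb
  set E : Fin (n ^ 2) → Matrix (Fin n) (Fin n) Ω := fun i => Ψ (b i) with hE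
  have hΨ : ∀ x : A, Ψ x = ∑ i, algebraMap K Ω (b.repr x i) • E i := by
    intro x
    conv_lhs => rw [← b.sum_repr x]
    rw [map_sum]
    refine Finset.sum_congr rfl fun i _ => ?_
    rw [map_smul, smul_eq']
  have htop : ⊤ ≤ Submodule.span Ω (Set.range E) := by
    rw [← hspan, Submodule.span_le]
    rintro _ ⟨x, rfl⟩
    rw [SetLike.mem_coe, hΨ x]
    exact Submodule.sum_mem _ fun i _ =>
      Submodule.smul_mem _ _ (Submodule.subset_span ⟨i, rfl⟩)
  have hcard : Fintype.card (Fin (n ^ 2)) = finrank Ω (Matrix (Fin n) (Fin n) Ω) := by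
    rw [Fintype.card_fin, Module.finrank_matrix]
    simp [sq]
  set bE := basisOfTopLeSpanOfCardEqFinrank E htop hcard with hbE
  have hbEi : ∀ i, bE i = E i := fun i => by
    rw [hbE, coe_basisOfTopLeSpanOfCardEqFinrank]
  have hrepr : ∀ (x : A) (i : Fin (n ^ 2)), bE.repr (Ψ x) i = algebraMap K Ω (b.repr x i) := by
    intro x i
    have h1 : Ψ x = ∑ i, algebraMap K Ω (b.repr x i) • bE i := by
      rw [hΨ x]
      exact Finset.sum_congr rfl fun i _ => by rw [hbEi]
    rw [h1, bE.repr_sum_self]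
  have hmat : (LinearMap.toMatrix b b (LinearMap.mulLeft K x)).map (algebraMap K Ω) =
      LinearMap.toMatrix bE bE (LinearMap.mulLeft Ω (Ψ x)) := by
    ext i j
    rw [Matrix.map_apply, LinearMap.toMatrix_apply, LinearMap.toMatrix_apply,
      LinearMap.mulLeft_apply, LinearMap.mulLeft_apply, hbEi, hE]
    simp only
    rw [← map_mul, hrepr]
  have hpow : (Ψ x).charpoly ^ n =
      (LinearMap.toMatrix b b (LinearMap.mulLeft K x)).charpoly.map (algebraMap K Ω) := by
    rw [← Matrix.charpoly_map, hmat, LinearMap.charpoly_toMatrix, charpoly_mulLeft]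
  have hfix : ∀ σ : Ω ≃ₐ[K] Ω, (Ψ x).charpoly.map (σ : Ω →+* Ω) = (Ψ x).charpoly := by
    intro σ
    refine pow_inj ((Matrix.charpoly_monic _).map _) (Matrix.charpoly_monic _) hn.ne' ?_
    rw [← Polynomial.map_pow, hpow, Polynomial.map_map]
    congr 1
    ext k
    simp
  haveI : Nonempty (Fin n) := ⟨⟨0, hn⟩⟩
  have hmem : (Ψ x).trace ∈ Set.range (algebraMap K Ω) := by
    rw [InfiniteGalois.mem_range_algebraMap_iff_fixed]
    intro σ
    have h1 := congrArg (fun p => Polynomial.coeff p (Fintype.card (Fin n) - 1)) (hfix σ)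
    simp only [Polynomial.coeff_map] at h1
    rw [Matrix.trace_eq_neg_charpoly_coeff, map_neg]
    exact congrArg Neg.neg h1
  obtain ⟨k, hk⟩ := hmem
  exact ⟨k, hk.symm⟩

theorem span_map {K A Ω Ω' : Type u} [Field K] [Ring A] [Algebra K A] [Field Ω] [Algebra K Ω]
    [Field Ω'] [Algebra K Ω'] {n : ℕ} (φ : Ω →ₐ[K] Ω')
    (Ψ : A →ₐ[K] Matrix (Fin n) (Fin n) Ω) (hspan : Submodule.span Ω (Set.range Ψ) = ⊤) :
    Submodule.span Ω' (Set.range (φ.mapMatrix.comp Ψ)) = ⊤ := by
  have h1 : ∀ M ∈ Submodule.span Ω (Set.range Ψ),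
      φ.mapMatrix M ∈ Submodule.span Ω' (Set.range (φ.mapMatrix.comp Ψ)) := by
    intro M hM
    induction hM using Submodule.span_induction with
    | mem M h =>
      obtain ⟨x, rfl⟩ := h
      exact Submodule.subset_span ⟨x, rfl⟩
    | zero => rw [map_zero]; exact Submodule.zero_mem _
    | add M N _ _ h1 h2 => rw [map_add]; exact Submodule.add_mem _ h1 h2
    | smul c M _ h =>
      have e : φ.mapMatrix (c • M) = φ c • φ.mapMatrix M := by
        ext i j
        simp
      rw [e]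
      exact Submodule.smul_mem _ _ h
  rw [eq_top_iff]
  intro N _
  rw [Matrix.matrix_eq_sum_single N]
  refine Submodule.sum_mem _ fun i _ => Submodule.sum_mem _ fun j _ => ?_
  have e : Matrix.single i j (N i j) = N i j • φ.mapMatrix (Matrix.single i j (1 : Ω)) := by
    rw [AlgHom.mapMatrix_apply, Matrix.map_single, map_one, Matrix.smul_single, smul_eq_mul,
      mul_one]
  rw [e]
  exact Submodule.smul_mem _ _ (h1 _ (by rw [hspan]; trivial))

end Pool.Agent.Helper7.PXT

namespace Pool.Agent.Helper75.PX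

open Pool.Agent.Helper7.PXT

theorem st_TRR (h1 : ST_SPS.{u}) : ST_TRR.{u} := by
  intro K A _ _ _ _ _ n hn hrank
  obtain ⟨Ψ, hspan⟩ := h1 K A n hn hrank
  set φ : SeparableClosure K →ₐ[K] AlgebraicClosure K :=
    IntermediateField.val (separableClosure K (AlgebraicClosure K)) with hφ
  refine ⟨φ.mapMatrix.comp Ψ, span_map φ Ψ hspan, fun x => ?_⟩
  obtain ⟨k, hk⟩ := ratl hn hrank Ψ hspan x
  refine ⟨k, ?_⟩
  have e : Matrix.trace ((φ.mapMatrix.comp Ψ) x) = φ (Matrix.trace (Ψ x)) := by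
    rw [AlgHom.comp_apply, AlgHom.mapMatrix_apply, Matrix.trace, Matrix.trace, map_sum]
    rfl
  rw [e, hk, AlgHom.commutes]

end Pool.Agent.Helper75.PX
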